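import Pool.Agent.H684AN.Far6

set_option autoImplicit false
open Classical
open scoped commutatorElement

/-!
The equivalence of an at most exponential Folner function and finite Assouad-Nagata dimension for
finitely generated groups having a finite-index subgroup `H` which is an extension of a locally
finite group `L` by a free abelian group of finite rank, when any two elements of `L` commute,
modulo elements centralised by a finite-index subgroup, as soon as one of them is conjugated far
away. No commutativity of `L` is assumed.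
-/

namespace Pool.Agent.Results.MP_90a473_al.FarNagata

/-- Let `G` be generated by the finite set `S`, let `H` be a finite-index subgroup of `G`, let
`L` be a normal subgroup of `H` which is locally finite, with `H ⧸ L` free abelian of rank `k`, and
let `K` be a finite-index subgroup of `H`. Suppose that for all `x, y` in `L` and all `g` in `H`
outside finitely many cosets of `L`, the commutator of `x` and `g * y * g⁻¹` commutes with `K`.
Then the Folner function of `G` is at most exponential if and only if `G` has finite
Assouad-Nagata dimension in the word metric of `S`. -/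
theorem result :
    ∀ (G : Type) [Group G] (S : Finset G), Subgroup.closure (S : Set G) = ⊤ →
      ∀ (H : Subgroup G), H.FiniteIndex → ∀ (L : Subgroup H) [L.Normal],
        (∀ E : Finset H, (E : Set H) ⊆ L → (Subgroup.closure (E : Set H) : Set H).Finite) →
        ∀ (K : Subgroup H), K.FiniteIndex →
        (∀ x ∈ L, ∀ y ∈ L, ∃ E : Set (H ⧸ L), E.Finite ∧ ∀ g : H,
          (QuotientGroup.mk g : H ⧸ L) ∉ E → ∀ w ∈ K, Commute ⁅x, g * y * g⁻¹⁆ w) →
        ∀ k : ℕ, Nonempty ((H ⧸ L) ≃* Multiplicative (Fin k → ℤ)) →
        ((∃ C : ℕ, ∀ n : ℕ, 1 ≤ n → ∃ F : Finset G, F.Nonempty ∧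
            n * (F.filter (fun g => ∃ s ∈ S, g * s ∉ F ∨ g * s⁻¹ ∉ F)).card ≤ F.card ∧
            F.card ≤ C ^ n) ↔
          ∃ (d C : ℕ), ∀ r : ℕ, 1 ≤ r →
            ∃ (c : G → Fin (d + 1)) (k : G → G), ∀ x y : G, c x = c y →
              (k x = k y →
                (SimpleGraph.fromRel (fun a b : G => a⁻¹ * b ∈ S)).dist x y ≤ C * r) ∧
              (k x ≠ k y →
                r < (SimpleGraph.fromRel (fun a b : G => a⁻¹ * b ∈ S)).dist x y)) := by
  intro G _ S hS H hfi L _ hloc K hK hfar k hq
  have h := H684AN.main_FarV S hS H hfi L hloc K hK hfar k hq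
  constructor
  · rintro ⟨C, hC1⟩
    refine h.1 ⟨C, fun n hn => ?_⟩
    obtain ⟨F, h1, h2, h3⟩ := hC1 n hn
    exact ⟨F, ⟨h1, h2⟩, h3⟩
  · intro h2
    obtain ⟨C, hC1⟩ := h.2 h2
    refine ⟨C, fun n hn => ?_⟩
    obtain ⟨F, ⟨h1, h2⟩, h3⟩ := hC1 n hn
    exact ⟨F, h1, h2, h3⟩

end Pool.Agent.Results.MP_90a473_al.FarNagata
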