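import Pool.Agent.H684AN.Mtb

set_option autoImplicit false
open Classical
open scoped commutatorElement

/-!
Q1 for all finitely generated virtually metabelian groups.
-/

namespace Pool.Agent.Results.MP_90a473_al.Metabelian

/-- Let `G` be generated by the finite set `S` and have a finite-index subgroup `H` which is
metabelian, that is, whose second derived subgroup is trivial. If the Folner function of `G` is at
most exponential, then `G` has finite Assouad-Nagata dimension in the word metric of `S`. -/
theorem result :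
    ∀ (G : Type) [Group G] (S : Finset G), Subgroup.closure (S : Set G) = ⊤ →
      ∀ (H : Subgroup G), H.FiniteIndex →
        ⁅(⁅H, H⁆ : Subgroup G), (⁅H, H⁆ : Subgroup G)⁆ = ⊥ →
        (∃ C : ℕ, ∀ n : ℕ, 1 ≤ n → ∃ F : Finset G, F.Nonempty ∧
            n * (F.filter (fun g => ∃ s ∈ S, g * s ∉ F ∨ g * s⁻¹ ∉ F)).card ≤ F.card ∧
            F.card ≤ C ^ n) →
          ∃ (d C : ℕ), ∀ r : ℕ, 1 ≤ r →
            ∃ (c : G → Fin (d + 1)) (k : G → G), ∀ x y : G, c x = c y →
              (k x = k y →
                (SimpleGraph.fromRel (fun a b : G => a⁻¹ * b ∈ S)).dist x y ≤ C * r) ∧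
              (k x ≠ k y →
                r < (SimpleGraph.fromRel (fun a b : G => a⁻¹ * b ∈ S)).dist x y) := by
  intro G _ S hS H hfi hmet ⟨C, hC1⟩
  refine H684AN.main_mtb S hS H hfi hmet ⟨C, fun n hn => ?_⟩
  obtain ⟨F, h1, h2, h3⟩ := hC1 n hn
  exact ⟨F, ⟨h1, h2⟩, h3⟩

end Pool.Agent.Results.MP_90a473_al.Metabelian
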