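import Pool.Agent.H684AN.Cen7

set_option autoImplicit false

/-!
Assouad-Nagata dimension at most one for finitely generated groups that have a finite-index
subgroup `H` which is an extension of a locally finite group `L` by the integers, when the derived
subgroup of `L` is centralised by a finite-index subgroup of `H`.
-/

namespace Pool.Agent.Results.MP_90a473_al.VirtCentralGen

/-- Let `G` be generated by the finite set `S`, let `H` be a finite-index subgroup of `G`, and let
`L` be a normal subgroup of `H` which is locally finite, with `H ⧸ L` infinite cyclic. If the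
centralizer of `[L, L]` in `H` has finite index in `H`, then `G` has Assouad-Nagata dimension at
most one in the word metric of `S`. -/
theorem result :
    ∀ (G : Type) [Group G] (S : Finset G), Subgroup.closure (S : Set G) = ⊤ →
      ∀ (H : Subgroup G), H.FiniteIndex → ∀ (L : Subgroup H) [L.Normal],
        (∀ E : Finset H, (E : Set H) ⊆ L → (Subgroup.closure (E : Set H) : Set H).Finite) →
        (Subgroup.centralizer ((⁅L, L⁆ : Subgroup H) : Set H)).FiniteIndex →
        Nonempty ((H ⧸ L) ≃* Multiplicative ℤ) →
        ∃ C : ℕ, ∀ r : ℕ, 1 ≤ r →
          ∃ (c : G → Fin 2) (k : G → G), ∀ x y : G, c x = c y →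
            (k x = k y →
              (SimpleGraph.fromRel (fun a b : G => a⁻¹ * b ∈ S)).dist x y ≤ C * r) ∧
            (k x ≠ k y →
              r < (SimpleGraph.fromRel (fun a b : G => a⁻¹ * b ∈ S)).dist x y) := by
  intro G _ S hS H hfi L _ hloc hC hq
  exact (H684AN.main_XV S hS H hfi L hloc hC hq).2

end Pool.Agent.Results.MP_90a473_al.VirtCentralGen
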